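import Mathlib
import Pool.Agent.H77CS.Final

/-!
# Consecutive sums of a random subset of `[n]`

For every fixed `p ∈ (0,1)` there is a constant `c > 0` such that the increasing enumeration `a`
of a `p`-random subset of `[n]` satisfies `|S(a)| ≥ c n²` with probability tending to one.
-/

open Finset Filter Topology

namespace Pool.Agent.Results.MP_a40b8c_co.RandomConsecutiveSums

/-- `S(a)` for a finite sequence `a_0, …, a_{k-1}`: the set of all sums
`a_i + a_{i+1} + ⋯ + a_j` with `i ≤ j`. -/
def consecutiveSums {k : ℕ} (a : Fin k → ℕ) : Finset ℕ :=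
  ((univ : Finset (Fin k × Fin k)).filter (fun q => q.1 ≤ q.2)).image
    (fun q => ∑ u ∈ Finset.Icc q.1 q.2, a u)

/-- the increasing enumeration of a finite set of natural numbers -/
def enumeration (A : Finset ℕ) : Fin A.card → ℕ := fun i => A.orderEmbOfFin rfl i

open Classical in
/-- probability that a `p`-random subset `A` of `[n] = {1, …, n}` has the property `E`:
a given subset `A` occurs with probability `p ^ |A| (1 - p) ^ (n - |A|)`. -/
noncomputable def prob (p : ℝ) (n : ℕ) (E : Finset ℕ → Prop) : ℝ :=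
  ∑ A ∈ (Finset.Icc 1 n).powerset.filter E, p ^ A.card * (1 - p) ^ (n - A.card)

open Pool.Agent.H77CS in
theorem Sm_subset (A : Finset ℕ) : Sm A ⊆ consecutiveSums (enumeration A) := by
  intro s hs
  simp only [Sm, mem_image, mem_filter, mem_product] at hs
  obtain ⟨q, ⟨⟨h1, h2⟩, h3⟩, h4⟩ := hs
  set e := A.orderEmbOfFin rfl with he
  have hr1 : q.1 ∈ Set.range e := by
    rw [he, Finset.range_orderEmbOfFin]; exact h1
  have hr2 : q.2 ∈ Set.range e := by
    rw [he, Finset.range_orderEmbOfFin]; exact h2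
  obtain ⟨i, hi⟩ := hr1
  obtain ⟨j, hj⟩ := hr2
  have hij : i < j := by
    rw [← hi, ← hj] at h3
    exact e.lt_iff_lt.mp h3
  have hij' : i.1 < j.1 := hij
  have hi1 : i.1 + 1 < A.card := by have := j.2; omega
  set i' : Fin A.card := ⟨i.1 + 1, hi1⟩ with hi'
  simp only [consecutiveSums, mem_image, mem_filter, mem_univ, true_and]
  refine ⟨(i', j), ?_, ?_⟩
  · show i'.1 ≤ j.1
    simp only [hi']; omega
  · rw [← h4]
    unfold S
    have hfil : A.filter (fun u => q.1 < u ∧ u ≤ q.2) = (Finset.Icc i' j).map e.toEmbedding := by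
      ext u
      simp only [mem_filter, Finset.mem_map, mem_Icc]
      constructor
      · rintro ⟨hu, hu1, hu2⟩
        have hr : u ∈ Set.range e := by
          rw [he, Finset.range_orderEmbOfFin]; exact hu
        obtain ⟨v, hv⟩ := hr
        refine ⟨v, ⟨?_, ?_⟩, hv⟩
        · rw [← hi, ← hv] at hu1
          have h5 : i < v := e.lt_iff_lt.mp hu1
          have h6 : i.1 < v.1 := h5
          show i'.1 ≤ v.1
          simp only [hi']; omega
        · rw [← hj, ← hv] at hu2
          exact e.le_iff_le.mp hu2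
      · rintro ⟨v, ⟨hv1, hv2⟩, hv⟩
        have hv' : e v = u := hv
        refine ⟨?_, ?_, ?_⟩
        · rw [← hv']; exact Finset.orderEmbOfFin_mem A rfl v
        · rw [← hi, ← hv']
          apply e.lt_iff_lt.mpr
          have h6 : i'.1 ≤ v.1 := hv1
          show i.1 < v.1
          simp only [hi'] at h6; omega
        · rw [← hj, ← hv']
          exact e.le_iff_le.mpr hv2
    rw [hfil, Finset.sum_map]
    rfl

open Pool.Agent.H77CS in
theorem prob_eq {p : ℝ} {n : ℕ} (E : Finset ℕ → Prop) [DecidablePred E] :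
    prob p n E = Ex p (Ioc 0 n) (fun A => if E A then (1 : ℝ) else 0) := by
  classical
  have hI : Finset.Icc 1 n = Ioc 0 n := by
    ext u
    simp only [mem_Icc, mem_Ioc]
    omega
  unfold prob Ex
  rw [Finset.sum_filter, hI]
  apply Finset.sum_congr rfl
  intro A _
  rw [Nat.card_Ioc, Nat.sub_zero]
  by_cases h : E A <;> simp [h]

open Pool.Agent.H77CS in
/-- **For every fixed `p ∈ (0,1)` there is `c > 0` such that a `p`-random subset of `[n]` has,
with probability tending to one, at least `c n²` distinct sums of consecutive elements.** -/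
theorem result :
    ∀ p : ℝ, 0 < p → p < 1 → ∃ c : ℝ, 0 < c ∧
      Tendsto (fun n : ℕ =>
        prob p n (fun A => c * (n : ℝ) ^ 2 ≤ ((consecutiveSums (enumeration A)).card : ℝ)))
        atTop (𝓝 1) := by
  classical
  intro p hp0 hp1
  refine ⟨p ^ 4 / 20971520, by positivity, ?_⟩
  rw [Metric.tendsto_atTop]
  intro δ hδ
  -- choose `B`
  obtain ⟨B0, hB0⟩ := exists_pow_lt_of_lt_one (show (0 : ℝ) < δ / 2 by linarith)
    (show (4 / 5 : ℝ) < 1 by norm_num)
  have hB1 : (4 / 5 : ℝ) ^ (B0 + 1) < δ / 2 := by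
    refine lt_of_le_of_lt ?_ hB0
    apply pow_le_pow_of_le_one (by norm_num) (by norm_num) (by omega)
  obtain ⟨n0, hn0⟩ := main_bound hp0 hp1 (B0 + 1) (by omega)
  obtain ⟨n1, hn1⟩ := exists_nat_gt (65536 / p ^ 3 / (δ / 2))
  refine ⟨n0 + n1 + 1, fun n hn => ?_⟩
  have h1 := hn0 n (by omega)
  have hnpos : (0 : ℝ) < n := by
    have : 0 < n := by omega
    exact_mod_cast this
  have h2 : 65536 / (p ^ 3 * n) < δ / 2 := by
    have h3 : (n1 : ℝ) ≤ n := by exact_mod_cast (by omega : n1 ≤ n)
    have h4 : 65536 / p ^ 3 / (δ / 2) < n := lt_of_lt_of_le hn1 h3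
    rw [div_lt_iff₀ (by positivity)] at h4
    rw [← div_div, div_lt_iff₀ hnpos]
    linarith
  rw [prob_eq]
  set f : Finset ℕ → ℝ := fun A =>
    if p ^ 4 / 20971520 * (n : ℝ) ^ 2 ≤ ((consecutiveSums (enumeration A)).card : ℝ)
      then (1 : ℝ) else 0 with hf
  have hle1 : Ex p (Ioc 0 n) f ≤ 1 := by
    apply Ex_le_const hp0.le hp1.le
    intro A _
    simp only [hf]
    split_ifs <;> norm_num
  have hge : 1 - Ex p (Ioc 0 n)
      (fun A => if ((Sm A).card : ℝ) < p ^ 4 / 20971520 * n ^ 2 then (1 : ℝ) else 0) ≤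
      Ex p (Ioc 0 n) f := by
    have h5 : (1 : ℝ) ≤ Ex p (Ioc 0 n) (fun A => f A +
        (if ((Sm A).card : ℝ) < p ^ 4 / 20971520 * n ^ 2 then (1 : ℝ) else 0)) := by
      have h8 := Ex_const p (Ioc 0 n) 1
      refine le_trans (le_of_eq h8.symm) ?_
      apply Ex_mono hp0.le hp1.le
      intro A _
      simp only [hf]
      have h6 : ((Sm A).card : ℝ) ≤ ((consecutiveSums (enumeration A)).card : ℝ) := by
        exact_mod_cast Finset.card_le_card (Sm_subset A)
      by_cases h7 : p ^ 4 / 20971520 * (n : ℝ) ^ 2 ≤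
        ((consecutiveSums (enumeration A)).card : ℝ)
      · rw [if_pos h7]
        split_ifs <;> norm_num
      · rw [if_neg h7, if_pos (by push Not at h7; linarith)]
        norm_num
    rw [Ex_add] at h5
    linarith
  rw [Real.dist_eq, abs_lt]
  constructor <;> linarith

end Pool.Agent.Results.MP_a40b8c_co.RandomConsecutiveSums
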